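import Pool.Agent.K7.H98.ZR12

/-!
# The symmetric zero-range process satisfies the integrated forward equation for every rate function

Idea of the proof. For the process with finitely many particles let `G` be the discounted mean number
of jumps out of the origin. The mean distance to the origin of a second class particle is a convex
function of its starting point, and a second class particle is a martingale; hence `G` increases (up
to the expected number of visits to the origin) when a particle is moved symmetrically. So the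
truncated configurations can be stabilized (as in internal diffusion limited aggregation) below a
random configuration of large density, distributed according to a product measure which is almost
invariant. This bounds the mean number of jumps out of every site, uniformly in the truncation, for
rates of arbitrary growth; the integrated forward equation follows by dominated convergence.
-/

set_option autoImplicit false

namespace Pool.Agent.Results.MP_68fe73_pr.ForwardEquation

open MeasureTheory Filter Topology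
open scoped ENNReal
open Pool.Agent.K7.H98.ZR

/-- the set `Y` of the configurations of finite asymptotic density:
`limsup (2n+1)⁻¹ ∑_{|x| ≤ n} η(x) < ∞` -/
def Y : Set (ℤ → ℕ) :=
  {η | limsup (fun n : ℕ => ((∑ x ∈ Finset.Icc (-(n : ℤ)) n, η x : ℕ) : ℝ≥0∞) / (2 * n + 1)) atTop < ⊤}

theorem density {η : ℤ → ℕ} (h : η ∈ Y) :
    ∃ C₀ : ℕ, ∀ n : ℕ, ∑ x ∈ Finset.Icc (-(n : ℤ)) n, η x ≤ C₀ * (2 * n + 1) := by
  have h' : limsup (fun n : ℕ => ((∑ x ∈ Finset.Icc (-(n : ℤ)) n, η x : ℕ) : ℝ≥0∞) / (2 * n + 1))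
      atTop < ⊤ := h
  obtain ⟨c, hc⟩ := ENNReal.exists_nat_gt h'.ne
  have h1 := eventually_lt_of_limsup_lt hc
  obtain ⟨m, hm⟩ := eventually_atTop.1 h1
  refine ⟨max c (∑ x ∈ Finset.Icc (-(m : ℤ)) m, η x), fun n => ?_⟩
  rcases le_or_gt m n with hmn | hmn
  · have h2 := hm n hmn
    have h3 : ((2 : ℝ≥0∞) * n + 1) = ((2 * n + 1 : ℕ) : ℝ≥0∞) := by push_cast; rfl
    rw [h3] at h2
    have h4 : ((∑ x ∈ Finset.Icc (-(n : ℤ)) n, η x : ℕ) : ℝ≥0∞) ≤ c * ((2 * n + 1 : ℕ) : ℝ≥0∞) := by
      rw [← ENNReal.div_le_iff (by simp) (ENNReal.natCast_ne_top _)]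
      exact h2.le
    have h5 : ∑ x ∈ Finset.Icc (-(n : ℤ)) n, η x ≤ c * (2 * n + 1) := by exact_mod_cast h4
    exact h5.trans (Nat.mul_le_mul_right _ (le_max_left _ _))
  · calc ∑ x ∈ Finset.Icc (-(n : ℤ)) n, η x ≤ ∑ x ∈ Finset.Icc (-(m : ℤ)) m, η x := by
          refine Finset.sum_le_sum_of_subset fun x hx => ?_
          rw [Finset.mem_Icc] at hx ⊢
          constructor <;> omega
      _ ≤ max c (∑ x ∈ Finset.Icc (-(m : ℤ)) m, η x) := le_max_right _ _
      _ ≤ _ := Nat.le_mul_of_pos_right _ (by omega)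

/-- **The integrated forward equation** holds for every nondecreasing unbounded rate function `g`
with `g 0 = 0` and every `η₀ ∈ Y`: whenever the zero-range processes `X n` started from the
truncations of `η₀` live on one probability space and increase with `n`, their limit `η_t` is finite,
the mean number of jumps out of every site up to time `t` is finite, and
`E f(η_t) = f(η₀) + ∫₀ᵗ E (L f)(η_u) du` for every bounded local `f` and every `t ≥ 0`. -/
theorem result (g : ℕ → ℝ) (hg0 : g 0 = 0) (hg : Monotone g) (hlim : Tendsto g atTop atTop)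
    (η₀ : ℤ → ℕ) (hη : η₀ ∈ Y) (Ω : Type) [MeasurableSpace Ω] (P : Measure Ω)
    [IsProbabilityMeasure P] (X : ℕ → ℝ → Ω → Cfg)
    (hX : ∀ n, IsZeroRange P g (trunc η₀ n) (X n))
    (hmono : ∀ n t, 0 ≤ t → ∀ᵐ ω ∂P, X n t ω ≤ X (n + 1) t ω) :
    (∀ t, 0 ≤ t → ∀ᵐ ω ∂P, ∀ x, ∀ᶠ n in atTop, X n t ω x = limX X t ω x) ∧
    (∀ t, 0 ≤ t → ∀ x,
      ∫⁻ u in Set.Icc 0 t, ∫⁻ ω, ENNReal.ofReal (g (limX X u ω x)) ∂P < ∞) ∧
    ∀ f : (ℤ → ℕ) → ℝ, IsLocal f → (∃ C, ∀ η, |f η| ≤ C) → ∀ t, 0 ≤ t →
      (∀ᵐ u ∂(volume.restrict (Set.Icc 0 t)), Integrable (fun ω => genI g f (limX X u ω)) P) ∧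
      IntervalIntegrable (fun u => ∫ ω, genI g f (limX X u ω) ∂P) volume 0 t ∧
      ∫ ω, f (limX X t ω) ∂P = f η₀ + ∫ u in (0 : ℝ)..t, ∫ ω, genI g f (limX X u ω) ∂P := by
  obtain ⟨C₀, hC₀⟩ := density hη
  refine ⟨fun t ht => ?_, fun t ht x => ?_, fun f hf hC t ht => ?_⟩
  · filter_upwards [bdd hlim hg hg0 hC₀ hX hmono ht] with ω hω x
    exact (eventually_lim hω.1 (hω.2 x)).2
  · exact (rate_finite hlim hg hg0 hC₀ hX hmono ht x).2
  · obtain ⟨C, hC⟩ := hC
    exact forward_eq hlim hg hg0 hC₀ hX hmono hf hC ht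

end Pool.Agent.Results.MP_68fe73_pr.ForwardEquation
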